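import Mathlib
import Pool.Agent.H686R3.LatticeFO

/-!
# Sublattices of subspace lattices over fields: not a variety, not finitely axiomatizable

All three statements of the question fail.

* `Sub((ℤ/2)³)` and `Sub((ℤ/3)³)` lie in the class, their product does not; so the class is
  not a variety.
* The lattices `L_p = Sub((ℤ/p)³) × Sub(E³)`, `E` a nonprincipal ultraproduct of the prime fields,
  do not lie in the class, but a nonprincipal ultraproduct of them does; so the class is not
  finitely axiomatizable.
-/

namespace Pool.Agent.Results.MP_622f37_al.NoneSpecifies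

open FirstOrder Filter Pool.Agent.H686R3

/-- `L` belongs to the class `K`: there are a commutative field `F`, an `F`-vector space `V` (of any
dimension) and an injective map from `L` to the lattice of all `F`-subspaces of `V` which
preserves binary joins and meets. -/
def InClass (L : Type) [Lattice L] : Prop :=
  ∃ (F : Type) (_ : Field F) (V : Type) (_ : AddCommGroup V) (_ : Module F V)
    (f : LatticeHom L (Submodule F V)), Function.Injective f

/-- `L` satisfies the identity `s = t` (`s`, `t` lattice terms in variables indexed by `ℕ`). -/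
def SatisfiesIdentity (L : Type) [Lattice L] (e : latLang.Term ℕ × latLang.Term ℕ) : Prop :=
  ∀ v : ℕ → L, e.1.realize v = e.2.realize v

/-- the first projection, as a homomorphism of structures -/
def fstHom (A B : Type) [Lattice A] [Lattice B] : (A × B) →[latLang] A where
  toFun := Prod.fst
  map_fun' := by
    intro n f x
    cases f <;> rfl
  map_rel' := by
    intro n r
    exact Empty.elim r

/-- the second projection, as a homomorphism of structures -/
def sndHom (A B : Type) [Lattice A] [Lattice B] : (A × B) →[latLang] B where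
  toFun := Prod.snd
  map_fun' := by
    intro n f x
    cases f <;> rfl
  map_rel' := by
    intro n r
    exact Empty.elim r

theorem prod_satisfies {A B : Type} [Lattice A] [Lattice B]
    {e : latLang.Term ℕ × latLang.Term ℕ} (hA : SatisfiesIdentity A e)
    (hB : SatisfiesIdentity B e) : SatisfiesIdentity (A × B) e := by
  intro v
  have h1 := hA (fstHom A B ∘ v)
  have h2 := hB (sndHom A B ∘ v)
  rw [FirstOrder.Language.HomClass.realize_term, FirstOrder.Language.HomClass.realize_term] at h1
  rw [FirstOrder.Language.HomClass.realize_term, FirstOrder.Language.HomClass.realize_term] at h2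
  exact Prod.ext h1 h2

theorem self_inClass (F : Type) [Field F] : InClass (Submodule F (Fin 3 → F)) :=
  ⟨F, inferInstance, Fin 3 → F, inferInstance, inferInstance, LatticeHom.id _,
    Function.injective_id⟩

theorem not_identities :
    ¬ ∃ E : Set (latLang.Term ℕ × latLang.Term ℕ),
      ∀ (L : Type) [Lattice L], InClass L ↔ ∀ e ∈ E, SatisfiesIdentity L e := by
  rintro ⟨E, hE⟩
  have h2 := (hE (Submodule (ZMod 2) (Fin 3 → ZMod 2))).mp (self_inClass (ZMod 2))
  have h3 := (hE (Submodule (ZMod 3) (Fin 3 → ZMod 3))).mp (self_inClass (ZMod 3))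
  have h : InClass (TwoField (ZMod 2) (ZMod 3)) :=
    (hE (TwoField (ZMod 2) (ZMod 3))).mpr fun e he => prod_satisfies (h2 e he) (h3 e he)
  obtain ⟨F, hF, V, hV1, hV2, f, hf⟩ := h
  exact not_embeds_of_char (F := ZMod 2) (E := ZMod 3) 2 (by decide) (by decide) f hf

theorem not_finite_sentences :
    ¬ ∃ Sg : Set latLang.Sentence, Sg.Finite ∧
      ∀ (L : Type) [Lattice L], InClass L ↔ ∀ φ ∈ Sg, L ⊨ φ := by
  rintro ⟨Sg, hfin, hSg⟩
  have h : ∀ φ ∈ Sg, ∀ᶠ i in (UU : Filter ℕ), LL i ⊨ φ := by
    intro φ hφ
    exact core φ fun M _ hM => (hSg M).mp hM φ hφ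
  have h2 : ∀ᶠ i in (UU : Filter ℕ), ∀ φ ∈ Sg, LL i ⊨ φ :=
    (Filter.eventually_all_finite hfin).mpr h
  obtain ⟨i, hi⟩ := h2.exists
  obtain ⟨F, hF, V, hV1, hV2, f, hf⟩ := (hSg (LL i)).mpr hi
  exact LL_not_embeds i f hf

/-- The complete answer to the question: none of the three statements holds.  The class `K` of
lattices isomorphic to sublattices of subspace lattices of vector spaces over fields is
(i) not specified by any set of identities, (ii) not specified by any finite set of first-order
sentences, (iii) not specified by any finite set of identities. -/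
theorem result :
    (¬ ∃ E : Set (latLang.Term ℕ × latLang.Term ℕ),
      ∀ (L : Type) [Lattice L], InClass L ↔ ∀ e ∈ E, SatisfiesIdentity L e) ∧
    (¬ ∃ Sg : Set latLang.Sentence, Sg.Finite ∧
      ∀ (L : Type) [Lattice L], InClass L ↔ ∀ φ ∈ Sg, L ⊨ φ) ∧
    (¬ ∃ E : Set (latLang.Term ℕ × latLang.Term ℕ), E.Finite ∧
      ∀ (L : Type) [Lattice L], InClass L ↔ ∀ e ∈ E, SatisfiesIdentity L e) :=
  ⟨not_identities, not_finite_sentences, fun ⟨E, _, hE⟩ => not_identities ⟨E, hE⟩⟩

end Pool.Agent.Results.MP_622f37_al.NoneSpecifies
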